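import Pool.Agent.N912.MS.Stm
import Pool.Agent.W240.GA.LevA
import Pool.Agent.W240.GA.LevB
import Pool.Agent.W397.GA.Cnt
import Pool.Agent.H376R2.MR.TpartA

/-! Project MS (helper912), task MS2: the abstract machine with the frequencies `ℤ × ℤ` and
exceptional radial frequencies. Port of `W240/GA/LevA`, `W240/GA/LevB`, `W397/GA/Cnt` and
`W586/GA/Mach`. -/

set_option autoImplicit false

namespace Pool.Agent.N49.MS

open Finset Filter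
open Pool.Agent.H376R2.MR hiding FK
open Pool.Agent.N912.MS (MachE FB nrm S_MACHE)

/-- smallness at the level `(H, v₀, v₁)` with exponent `α` -/
def SmA (P : ℕ → ℕ → ℤ × ℤ → ℂ) (H v₀ v₁ : ℕ) (α : ℝ) (k : ℤ × ℤ) : Prop :=
  ∀ v ∈ Ico v₀ v₁, ‖P H v k‖ ≤ Real.exp (-(α * v / H))

/-- smallness at the level number `j` -/
def SmjA (P : ℕ → ℕ → ℤ × ℤ → ℂ) (L : ℕ) (α : ℝ) (j : ℕ) (k : ℤ × ℤ) : Prop :=
  SmA P (LL L j) (LL L j ^ 2) (LL L j ^ 3) (aa α j) k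

/-- LEVA -/
def S_LEVA : Prop := ∀ (P : ℕ → ℕ → ℤ × ℤ → ℂ) (m : ℕ → ℕ → ℝ) (G : ℝ → ℤ × ℤ → ℂ), MachE P m G →
  ∃ C : ℝ, 0 < C ∧ ∀ α : ℝ, 0 < α → α ≤ 1 → ∃ L₀ : ℕ, ∀ L : ℕ, L₀ ≤ L →
    ∀ (Y : ℝ) (K : ℕ), Real.exp (4 * (L : ℝ) ^ 2) ≤ Y → 1 ≤ K → (K : ℝ) * Real.exp ((L : ℝ) ^ 2) ≤ Y →
    (open scoped Classical in
      ∑ k ∈ (FB K).filter (fun k => SmjA P L α 0 k), ‖G Y k‖ ^ 2) ≤ C / Real.log L

/-- LEVB -/
def S_LEVB : Prop := ∀ (P : ℕ → ℕ → ℤ × ℤ → ℂ) (m : ℕ → ℕ → ℝ) (G : ℝ → ℤ × ℤ → ℂ), MachE P m G →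
  ∃ C : ℝ, 0 < C ∧ ∀ α : ℝ, 0 < α → α ≤ 1 → ∃ L₀ : ℕ, ∀ L : ℕ, L₀ ≤ L →
    ∀ (j : ℕ) (Y : ℝ) (K : ℕ), Real.exp (4 * (LL L (j + 1) : ℝ) ^ 2) ≤ Y → 1 ≤ K → (K : ℝ) ≤ Y →
    (open scoped Classical in
      ∑ k ∈ (FB K).filter (fun k => SmjA P L α (j + 1) k ∧ ¬ SmjA P L α j k), ‖G Y k‖ ^ 2) ≤
      C / (3 ^ (j + 1) * Real.log L)

/-- CNT -/
def S_CNT : Prop := ∀ (P : ℕ → ℕ → ℤ × ℤ → ℂ) (m : ℕ → ℕ → ℝ) (G : ℝ → ℤ × ℤ → ℂ), MachE P m G →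
  ∀ α : ℝ, 0 < α → α ≤ 1 → ∃ L₀ : ℕ, ∀ L : ℕ, L₀ ≤ L → ∃ Y₀ : ℝ, ∀ Y : ℝ, Y₀ ≤ Y →
    ∀ j K : ℕ, (LL L j : ℝ) ^ 4 ≤ Real.log Y → Real.log Y < (LL L (j + 1) : ℝ) ^ 4 → (K : ℝ) ≤ Y →
    (open scoped Classical in
      (((FB K).filter (fun k => ¬ SmjA P L α j k)).card : ℝ)) ≤ Y ^ (4 * α)

/-- TPART -/
def S_TPART : Prop := S_LEVA → S_LEVB → S_CNT →
  ∀ (P : ℕ → ℕ → ℤ × ℤ → ℂ) (m : ℕ → ℕ → ℝ) (G : ℝ → ℤ × ℤ → ℂ), MachE P m G →
    ∀ α η : ℝ, 0 < α → 0 < η → ∃ h : ℝ, 1 ≤ h ∧ ∃ Y₀ : ℝ, ∀ Y : ℝ, Y₀ ≤ Y →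
    ∃ U : Finset (ℤ × ℤ), (U.card : ℝ) ≤ Y ^ α ∧ ∑ k ∈ FB ⌊Y / h⌋₊ \ U, ‖G Y k‖ ^ 2 ≤ η

/-- UPART -/
def S_UPART : Prop := ∀ (P : ℕ → ℕ → ℤ × ℤ → ℂ) (m : ℕ → ℕ → ℝ) (G : ℝ → ℤ × ℤ → ℂ), MachE P m G →
  ∀ η : ℝ, 0 < η → ∃ α : ℝ, 0 < α ∧ ∃ X₀ : ℕ, ∃ Y₀ : ℝ, ∀ Y : ℝ, Y₀ ≤ Y →
    ∀ U : Finset (ℤ × ℤ), (∀ k ∈ U, (k.1 ≠ 0 ∨ (X₀ : ℤ) ≤ |k.2|) ∧ (nrm k : ℝ) ≤ Y) → (U.card : ℝ) ≤ Y ^ α → ∑ k ∈ U, ‖G Y k‖ ^ 2 ≤ η

lemma FB_zero : FB 0 = ∅ := by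
  unfold FB
  rw [Finset.filter_eq_empty_iff]
  intro κ _ h
  have h1 : κ.1 ^ 2 ≤ nrm κ := le_max_left _ _
  have h2 := sq_nonneg κ.1
  push_cast at h
  omega

theorem leva : S_LEVA := by
  classical
  intro P m G hM
  obtain ⟨c, hc, C₄, hWW⟩ := hM.rich
  obtain ⟨C₁, hC₁, β, hβ, Z₀, hdec⟩ := hM.dec
  obtain ⟨C₃, hC₃, hmom⟩ := hM.mom_zero
  refine ⟨4 * C₃ + 2 * C₁ * (2 / c + 1), by positivity, fun α hα hα1 => ?_⟩
  obtain ⟨L₁, hL₁⟩ := leva_decay α hα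
  have hlogt : Tendsto (fun L : ℕ => Real.log L) atTop atTop :=
    Real.tendsto_log_atTop.comp tendsto_natCast_atTop_atTop
  obtain ⟨L₂, hL₂⟩ := Filter.eventually_atTop.mp (hlogt.eventually_ge_atTop ((2 * |C₄| + 2) / c))
  refine ⟨max (max L₁ L₂) 1, fun L hL Y K hY hK hKY => ?_⟩
  have hL1 : 1 ≤ L := (le_max_right _ _).trans hL
  have hLa : L₁ ≤ L := ((le_max_left _ _).trans (le_max_left _ _)).trans hL
  have hLb : L₂ ≤ L := ((le_max_right _ _).trans (le_max_left _ _)).trans hL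
  have hL1' : (1 : ℝ) ≤ L := by exact_mod_cast hL1
  have hlog0 : (2 * |C₄| + 2) / c ≤ Real.log L := hL₂ L hLb
  have hlogpos : 0 < Real.log L := lt_of_lt_of_le (by positivity) hlog0
  have hlog : 2 * |C₄| + 2 ≤ c * Real.log L := by
    rw [div_le_iff₀ hc] at hlog0; linarith
  have hC4 := le_abs_self C₄
  have hC4' := abs_nonneg C₄
  have hYpos : 0 < Y := (Real.exp_pos _).trans_le hY
  set W : ℝ := ∑ v ∈ Ico (L ^ 2) (L ^ 3), m L v with hW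
  have hWlog : c * Real.log L - C₄ ≤ W := by
    have h := hWW L (L ^ 2) (L ^ 3) hL1 (by nlinarith) (Nat.pow_le_pow_right hL1 (by norm_num))
    have e : (((L ^ 3 : ℕ) : ℝ) / ((L ^ 2 : ℕ) : ℝ)) = L := by
      push_cast
      field_simp
    rw [e] at h
    exact h
  have hW1 : 1 ≤ W := by linarith
  have hW2 : c * Real.log L / 2 ≤ W := by linarith
  have hLpos : (0 : ℝ) < L := by linarith
  obtain ⟨E, hGG, hE, -⟩ := hdec L (L ^ 2) (L ^ 3) hL1 (by nlinarith) hW1 Y (by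
    have e : 4 * (((L ^ 3 : ℕ) : ℝ)) / (L : ℝ) = 4 * (L : ℝ) ^ 2 := by
      push_cast; field_simp
    rw [e]; exact hY)
  have hexpL : (1 : ℝ) ≤ Real.exp ((L : ℝ) ^ 2) := Real.one_le_exp (by positivity)
  have hKY' : (K : ℝ) ≤ Y := by
    have : (K : ℝ) * 1 ≤ K * Real.exp ((L : ℝ) ^ 2) :=
      mul_le_mul_of_nonneg_left hexpL (Nat.cast_nonneg _)
    linarith
  have herr := hE K hK hKY'
  -- the main part
  set ρ : ℝ := Real.exp (-(α * L)) with hρ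
  have hρ0 : 0 < ρ := Real.exp_pos _
  have hmain : ∀ k ∈ (FB K).filter (fun k => SmjA P L α 0 k), ‖G Y k‖ ^ 2 ≤
      2 * ((L : ℝ) ^ 3 * ρ * ∑ v ∈ Ico (L ^ 2) (L ^ 3), ‖G (Y * Real.exp (-((v : ℝ) / L))) k‖ ^ 2) +
        2 * ‖E k‖ ^ 2 := by
    intro k hk
    have hk2 := (Finset.mem_filter.mp hk).2
    rw [hGG k]
    have hP : ∀ v ∈ Ico (L ^ 2) (L ^ 3), ‖P L v k‖ ^ 2 ≤ ρ := by
      intro v hv
      have hk3 : ‖P (LL L 0) v k‖ ≤ Real.exp (-(aa α 0 * v / (LL L 0 : ℕ))) :=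
        hk2 v (by simpa [LL] using hv)
      have e0 : LL L 0 = L := by simp [LL]
      rw [e0] at hk3
      have e1 : aa α 0 = α / 2 := by simp only [aa]; norm_num; ring
      rw [e1] at hk3
      have hv1 : ((L : ℝ)) ^ 2 ≤ v := by exact_mod_cast (Finset.mem_Ico.mp hv).1
      have h6 : Real.exp (-(α / 2 * v / L)) ^ 2 ≤ ρ := by
        rw [hρ, ← Real.exp_nat_mul]
        apply Real.exp_le_exp.mpr
        push_cast
        have : (L : ℝ) ≤ v / L := by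
          rw [le_div_iff₀ hLpos]; nlinarith
        have h7 : α * L ≤ α * (v / L) := mul_le_mul_of_nonneg_left this hα.le
        have h8 : 2 * -(α / 2 * (v : ℝ) / L) = -(α * (v / L)) := by ring
        rw [h8]
        linarith
      exact (pow_le_pow_left₀ (norm_nonneg _) hk3 2).trans h6
    have h9 := leva_cs (Ico (L ^ 2) (L ^ 3)) W hW1 (fun v => P L v k)
      (fun v => G (Y * Real.exp (-((v : ℝ) / L))) k) (E k) ρ hP
    refine h9.trans ?_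
    have hcard : ((Ico (L ^ 2) (L ^ 3)).card : ℝ) ≤ (L : ℝ) ^ 3 := by
      rw [Nat.card_Ico]
      exact_mod_cast Nat.sub_le _ _
    have hS : 0 ≤ ∑ v ∈ Ico (L ^ 2) (L ^ 3), ‖G (Y * Real.exp (-((v : ℝ) / L))) k‖ ^ 2 :=
      Finset.sum_nonneg fun v _ => sq_nonneg _
    have : ((Ico (L ^ 2) (L ^ 3)).card : ℝ) * ρ *
        ∑ v ∈ Ico (L ^ 2) (L ^ 3), ‖G (Y * Real.exp (-((v : ℝ) / L))) k‖ ^ 2 ≤
        (L : ℝ) ^ 3 * ρ * ∑ v ∈ Ico (L ^ 2) (L ^ 3), ‖G (Y * Real.exp (-((v : ℝ) / L))) k‖ ^ 2 :=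
      mul_le_mul_of_nonneg_right (mul_le_mul_of_nonneg_right hcard hρ0.le) hS
    linarith
  have hv : ∀ v ∈ Ico (L ^ 2) (L ^ 3),
      ∑ k ∈ FB K, ‖G (Y * Real.exp (-((v : ℝ) / L))) k‖ ^ 2 ≤ 2 * C₃ := by
    intro v hv
    have hv2 : (v : ℝ) / L ≤ (L : ℝ) ^ 2 := by
      rw [div_le_iff₀ hLpos]
      have : (v : ℝ) ≤ (L : ℝ) ^ 3 := by exact_mod_cast (Finset.mem_Ico.mp hv).2.le
      nlinarith
    set Z : ℝ := Y * Real.exp (-((v : ℝ) / L)) with hZ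
    have hZ1 : Y * Real.exp (-((L : ℝ) ^ 2)) ≤ Z :=
      mul_le_mul_of_nonneg_left (Real.exp_le_exp.mpr (by linarith)) hYpos.le
    have hZK : (K : ℝ) ≤ Z := by
      refine le_trans ?_ hZ1
      rw [Real.exp_neg, ← div_eq_mul_inv, le_div_iff₀ (Real.exp_pos _)]
      exact hKY
    have hZ3 : 3 ≤ Z := by
      refine le_trans ?_ hZ1
      have h5 : Real.exp (4 * (L : ℝ) ^ 2) * Real.exp (-((L : ℝ) ^ 2)) ≤
          Y * Real.exp (-((L : ℝ) ^ 2)) :=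
        mul_le_mul_of_nonneg_right hY (Real.exp_pos _).le
      rw [← Real.exp_add] at h5
      have h6 := Real.add_one_le_exp (4 * (L : ℝ) ^ 2 + -((L : ℝ) ^ 2))
      nlinarith
    have hZpos : 0 < Z := by linarith
    refine (hmom K Z hZ3 hK).trans ?_
    have : (K : ℝ) / Z ≤ 1 := by rw [div_le_one hZpos]; exact hZK
    nlinarith
  calc ∑ k ∈ (FB K).filter (fun k => SmjA P L α 0 k), ‖G Y k‖ ^ 2
      ≤ ∑ k ∈ (FB K).filter (fun k => SmjA P L α 0 k),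
        (2 * ((L : ℝ) ^ 3 * ρ *
          ∑ v ∈ Ico (L ^ 2) (L ^ 3), ‖G (Y * Real.exp (-((v : ℝ) / L))) k‖ ^ 2) +
        2 * ‖E k‖ ^ 2) := Finset.sum_le_sum hmain
    _ ≤ ∑ k ∈ FB K,
        (2 * ((L : ℝ) ^ 3 * ρ *
          ∑ v ∈ Ico (L ^ 2) (L ^ 3), ‖G (Y * Real.exp (-((v : ℝ) / L))) k‖ ^ 2) +
        2 * ‖E k‖ ^ 2) := by
        refine Finset.sum_le_sum_of_subset_of_nonneg (Finset.filter_subset _ _) ?_
        intro k _ _
        positivity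
    _ = 2 * ((L : ℝ) ^ 3 * ρ) * (∑ v ∈ Ico (L ^ 2) (L ^ 3),
          ∑ k ∈ FB K, ‖G (Y * Real.exp (-((v : ℝ) / L))) k‖ ^ 2) +
        2 * ∑ k ∈ FB K, ‖E k‖ ^ 2 := by
        rw [Finset.sum_add_distrib, ← Finset.mul_sum, ← Finset.mul_sum, ← Finset.mul_sum,
          Finset.sum_comm]
        ring
    _ ≤ 2 * ((L : ℝ) ^ 3 * ρ) * ((L : ℝ) ^ 3 * (2 * C₃)) +
        2 * (C₁ * (1 / W + 1 / (L : ℝ) ^ 2)) := by
        refine add_le_add (mul_le_mul_of_nonneg_left ?_ (by positivity)) ?_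
        · refine (Finset.sum_le_card_nsmul _ _ _ hv).trans ?_
          rw [nsmul_eq_mul, Nat.card_Ico]
          refine mul_le_mul_of_nonneg_right ?_ (by positivity)
          exact_mod_cast Nat.sub_le _ _
        · exact mul_le_mul_of_nonneg_left herr (by norm_num)
    _ ≤ (4 * C₃ + 2 * C₁ * (2 / c + 1)) / Real.log L := by
        rw [le_div_iff₀ hlogpos, add_mul]
        have h1 := hL₁ L hLa
        have h2 : 1 / W * Real.log L ≤ 2 / c := by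
          rw [one_div, inv_mul_le_iff₀ (by linarith), ← div_le_iff₀ (by positivity)]
          have e9 : Real.log L / (2 / c) = c * Real.log L / 2 := by
            field_simp
          rw [e9]; exact hW2
        have h3 : 1 / (L : ℝ) ^ 2 * Real.log L ≤ 1 := by
          rw [one_div, inv_mul_le_iff₀ (by positivity), mul_one]
          have : Real.log L ≤ L := (Real.log_le_sub_one_of_pos (by linarith)).trans (by linarith)
          nlinarith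
        have h4 : 2 * ((L : ℝ) ^ 3 * ρ) * ((L : ℝ) ^ 3 * (2 * C₃)) * Real.log L =
            4 * C₃ * ((L : ℝ) ^ 6 * ρ * Real.log L) := by ring
        have h5 : 2 * (C₁ * (1 / W + 1 / (L : ℝ) ^ 2)) * Real.log L =
            2 * C₁ * (1 / W * Real.log L + 1 / (L : ℝ) ^ 2 * Real.log L) := by ring
        rw [h4, h5]
        have h6 : 4 * C₃ * ((L : ℝ) ^ 6 * ρ * Real.log L) ≤ 4 * C₃ * 1 :=
          mul_le_mul_of_nonneg_left h1 (by positivity)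
        have h7 : 2 * C₁ * (1 / W * Real.log L + 1 / (L : ℝ) ^ 2 * Real.log L) ≤
            2 * C₁ * (2 / c + 1) := mul_le_mul_of_nonneg_left (by linarith) (by positivity)
        linarith

/-- one cell on each of the two levels -/
theorem xlevb_vr' {P : ℕ → ℕ → ℤ × ℤ → ℂ} {G : ℝ → ℤ × ℤ → ℂ} {C₀ : ℝ} (hC₀ : 0 ≤ C₀) (hmom : ∀ (H r ℓ K : ℕ) (Z : ℝ), 1 ≤ H → 3 ≤ Z → 1 ≤ K →
    (K : ℝ) ≤ Z * Real.exp ((r : ℝ) * ℓ / H) →
    ∑ k ∈ FB K, ‖P H r k ^ ℓ * G Z k‖ ^ 2 ≤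
      C₀ ^ (ℓ + 1) * (ℓ.factorial : ℝ) ^ 8)
    {α : ℝ} (hα : 0 < α) (hα1 : α ≤ 1) {lN hN v r K : ℕ} (j : ℕ) {Y : ℝ} (hl : 1 ≤ lN)
    (hh1 : 1 ≤ hN) (hv2 : v < hN ^ 3) (hr1 : lN ^ 2 ≤ r)
    (hr2 : r < lN ^ 3) (hK : 1 ≤ K) (hKY : (K : ℝ) ≤ Y) (hY : Real.exp (4 * (hN : ℝ) ^ 2) ≤ Y)
    (T : Finset (ℤ × ℤ)) (hT : T ⊆ FB K)
    (hT1 : ∀ k ∈ T, ‖P hN v k‖ ≤ Real.exp (-(aa α (j + 1) * v / hN))) :
    ∃ n : ℕ, (n : ℝ) ≤ ((v : ℝ) / hN) / lN + 1 ∧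
    (open scoped Classical in
    ∑ k ∈ T, (if Real.exp (-(aa α j * r / lN)) < ‖P lN r k‖ then
      ‖P hN v k * G (Y * Real.exp (-((v : ℝ) / hN))) k‖ ^ 2 else 0)) ≤
      Real.exp (-(α / 2 ^ (j + 1)) * ((v : ℝ) / hN) + 2 * (lN : ℝ) ^ 2) *
        (C₀ ^ (n + 1) * (n.factorial : ℝ) ^ 8) := by
  classical
  have hlr : (1 : ℝ) ≤ lN := by exact_mod_cast hl
  have hhr : (1 : ℝ) ≤ hN := by exact_mod_cast hh1
  set x : ℝ := (v : ℝ) / hN with hx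
  set y : ℝ := (r : ℝ) / lN with hy
  have hx0 : 0 ≤ x := by positivity
  have hxlt : x < (hN : ℝ) ^ 2 := by
    rw [hx, div_lt_iff₀ (by linarith)]
    have h1 : (v : ℝ) < (hN : ℝ) ^ 3 := by exact_mod_cast hv2
    calc (v : ℝ) < (hN : ℝ) ^ 3 := h1
      _ = (hN : ℝ) ^ 2 * hN := by ring
  have hy1 : (lN : ℝ) ≤ y := by
    rw [hy, le_div_iff₀ (by linarith)]
    have h1 : (lN : ℝ) ^ 2 ≤ r := by exact_mod_cast hr1
    calc (lN : ℝ) * lN = (lN : ℝ) ^ 2 := by ring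
      _ ≤ r := h1
  have hy2 : y ≤ (lN : ℝ) ^ 2 := by
    rw [hy, div_le_iff₀ (by linarith)]
    have h1 : (r : ℝ) ≤ (lN : ℝ) ^ 3 := by exact_mod_cast hr2.le
    calc (r : ℝ) ≤ (lN : ℝ) ^ 3 := h1
      _ = (lN : ℝ) ^ 2 * lN := by ring
  have hy0 : 0 < y := by linarith
  set n : ℕ := ⌈x / y⌉₊ with hn
  have hn1 : x ≤ n * y := by
    have := Nat.le_ceil (x / y)
    rwa [div_le_iff₀ hy0] at this
  have hn2 : (n : ℝ) < x / y + 1 := Nat.ceil_lt_add_one (by positivity)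
  have hn3 : n * y ≤ x + (lN : ℝ) ^ 2 := by
    have : (n : ℝ) * y ≤ (x / y + 1) * y := mul_le_mul_of_nonneg_right hn2.le hy0.le
    rw [add_mul, div_mul_cancel₀ _ hy0.ne', one_mul] at this
    linarith
  have hn4 : (n : ℝ) ≤ x / lN + 1 := by
    have : x / y ≤ x / lN := div_le_div_of_nonneg_left hx0 (by linarith) hy1
    linarith
  refine ⟨n, hn4, ?_⟩
  set Z : ℝ := Y * Real.exp (-x) with hZ
  have hZ3 : 3 ≤ Z := by
    have h1 : Real.exp 3 ≤ Z := by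
      have h2 : Real.exp (4 * (hN : ℝ) ^ 2) * Real.exp (-x) ≤ Z :=
        mul_le_mul_of_nonneg_right hY (Real.exp_pos _).le
      rw [← Real.exp_add] at h2
      refine le_trans (Real.exp_le_exp.2 ?_) h2
      nlinarith
    have h3 : (3 : ℝ) + 1 ≤ Real.exp 3 := Real.add_one_le_exp 3
    linarith
  have hKZ : (K : ℝ) ≤ Z * Real.exp ((r : ℝ) * n / lN) := by
    have h1 : (r : ℝ) * n / lN = n * y := by rw [hy]; ring
    rw [h1, hZ, mul_assoc, ← Real.exp_add]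
    have h2 : 1 ≤ Real.exp (-x + n * y) := Real.one_le_exp (by linarith)
    have hY0 : 0 ≤ Y := le_trans (Nat.cast_nonneg K) hKY
    calc (K : ℝ) ≤ Y := hKY
      _ = Y * 1 := (mul_one Y).symm
      _ ≤ _ := mul_le_mul_of_nonneg_left h2 hY0
  have hmain := hmom lN r n K Z hl hZ3 hK hKZ
  set E₀ : ℝ := Real.exp (-(2 * aa α (j + 1) * x) + 2 * aa α j * (n * y)) with hE₀
  have hE₀pos : 0 < E₀ := Real.exp_pos _
  have hpt : ∀ k ∈ T, (if Real.exp (-(aa α j * r / lN)) < ‖P lN r k‖ then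
      ‖P hN v k * G Z k‖ ^ 2 else 0) ≤ E₀ * ‖P lN r k ^ n * G Z k‖ ^ 2 := by
    intro k hk
    split_ifs with hc
    · rw [norm_mul, norm_mul, norm_pow, mul_pow, mul_pow]
      have h1 := hT1 k hk
      have e1 : aa α (j + 1) * v / hN = aa α (j + 1) * x := by rw [hx]; ring
      have e2 : aa α j * r / lN = aa α j * y := by rw [hy]; ring
      rw [e1] at h1
      rw [e2] at hc
      have h2 : ‖P hN v k‖ ^ 2 ≤ Real.exp (-(aa α (j + 1) * x)) ^ 2 :=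
        pow_le_pow_left₀ (norm_nonneg _) h1 2
      have h3 : (Real.exp (-(aa α j * y)) ^ n) ^ 2 ≤ (‖P lN r k‖ ^ n) ^ 2 :=
        pow_le_pow_left₀ (by positivity) (pow_le_pow_left₀ (Real.exp_pos _).le hc.le n) 2
      have h4 : Real.exp (-(aa α (j + 1) * x)) ^ 2 =
          E₀ * (Real.exp (-(aa α j * y)) ^ n) ^ 2 := by
        rw [← Real.exp_nat_mul, ← Real.exp_nat_mul, ← Real.exp_nat_mul, hE₀, ← Real.exp_add]
        congr 1
        push_cast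
        ring
      rw [← mul_assoc]
      apply mul_le_mul_of_nonneg_right _ (by positivity)
      calc ‖P hN v k‖ ^ 2 ≤ E₀ * (Real.exp (-(aa α j * y)) ^ n) ^ 2 := by rw [← h4]; exact h2
        _ ≤ E₀ * (‖P lN r k‖ ^ n) ^ 2 := mul_le_mul_of_nonneg_left h3 hE₀pos.le
    · positivity
  have hEE : E₀ ≤ Real.exp (-(α / 2 ^ (j + 1)) * x + 2 * (lN : ℝ) ^ 2) := by
    rw [hE₀]
    apply Real.exp_le_exp.2
    have h1 := levb_aa (α := α) j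
    have h2 := levb_aa_nonneg hα j
    have h3 := levb_aa_le hα hα1 j
    have h4 : aa α j * (n * y) ≤ aa α j * (x + (lN : ℝ) ^ 2) := mul_le_mul_of_nonneg_left hn3 h2
    have h5 : aa α j * (lN : ℝ) ^ 2 ≤ 1 * (lN : ℝ) ^ 2 :=
      mul_le_mul_of_nonneg_right h3 (by positivity)
    rw [← h1]
    nlinarith
  calc ∑ k ∈ T, (if Real.exp (-(aa α j * r / lN)) < ‖P lN r k‖ then
      ‖P hN v k * G Z k‖ ^ 2 else 0)
      ≤ ∑ k ∈ T, E₀ * ‖P lN r k ^ n * G Z k‖ ^ 2 := Finset.sum_le_sum hpt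
    _ ≤ ∑ k ∈ FB K, E₀ * ‖P lN r k ^ n * G Z k‖ ^ 2 :=
        Finset.sum_le_sum_of_subset_of_nonneg hT fun k _ _ => by positivity
    _ = E₀ * ∑ k ∈ FB K, ‖P lN r k ^ n * G Z k‖ ^ 2 := by rw [Finset.mul_sum]
    _ ≤ E₀ * (C₀ ^ (n + 1) * (n.factorial : ℝ) ^ 8) :=
        mul_le_mul_of_nonneg_left hmain hE₀pos.le
    _ ≤ Real.exp (-(α / 2 ^ (j + 1)) * x + 2 * (lN : ℝ) ^ 2) *
        (C₀ ^ (n + 1) * (n.factorial : ℝ) ^ 8) := by
        apply mul_le_mul_of_nonneg_right hEE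
        positivity


theorem levb : S_LEVB := by
  classical
  intro P m G hM
  obtain ⟨c, hc, CW', hWW⟩ := hM.rich
  obtain ⟨CD, hCD, β, hβ, Z₀, hdec⟩ := hM.dec
  obtain ⟨C₀, hC₀1, hmom⟩ := hM.mom
  have hC₀ : 0 < C₀ := by linarith
  obtain ⟨CW, hCWdef⟩ : ∃ CW : ℝ, CW = |CW'| := ⟨_, rfl⟩
  have hCW0 : 0 ≤ CW := by rw [hCWdef]; exact abs_nonneg _
  have hCW1 : CW' ≤ CW := by rw [hCWdef]; exact le_abs_self _
  obtain ⟨CB, hCBdef⟩ : ∃ CB : ℝ, CB = (2 * CW + 2) / c := ⟨_, rfl⟩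
  have hCB0 : 0 < CB := by rw [hCBdef]; positivity
  have hcCB : c * CB = 2 * CW + 2 := by rw [hCBdef]; field_simp
  obtain ⟨κ, hκdef⟩ : ∃ κ : ℝ, κ = 2 / c + 1 := ⟨_, rfl⟩
  have hκ0 : 0 < κ := by rw [hκdef]; positivity
  refine ⟨1 + 2 * (CD * κ), by positivity, fun α hα hα1 => ?_⟩
  refine ⟨max (max 4 ⌈C₀⌉₊) (max ⌈(520 / α) ^ 2⌉₊ ⌈Real.exp CB⌉₊), fun L hL j Y K hY hK hKY => ?_⟩
  have hL4 : 4 ≤ L := le_trans (le_trans (le_max_left _ _) (le_max_left _ _)) hL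
  have hCL : C₀ ≤ (L : ℝ) := by
    have h1 : ⌈C₀⌉₊ ≤ L := le_trans (le_trans (le_max_right _ _) (le_max_left _ _)) hL
    exact (Nat.le_ceil _).trans (by exact_mod_cast h1)
  have hL2 : (520 / α) ^ 2 ≤ (L : ℝ) := by
    have h1 : ⌈(520 / α) ^ 2⌉₊ ≤ L := le_trans (le_trans (le_max_left _ _) (le_max_right _ _)) hL
    exact (Nat.le_ceil _).trans (by exact_mod_cast h1)
  have hL3 : Real.exp CB ≤ (L : ℝ) := by
    have h1 : ⌈Real.exp CB⌉₊ ≤ L :=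
      le_trans (le_trans (le_max_right _ _) (le_max_right _ _)) hL
    exact (Nat.le_ceil _).trans (by exact_mod_cast h1)
  have hLr : (4 : ℝ) ≤ L := by exact_mod_cast hL4
  have hLα : 520 ≤ α * Real.sqrt L := by
    have h1 : 520 / α ≤ Real.sqrt L := Real.le_sqrt_of_sq_le hL2
    rw [div_le_iff₀ hα] at h1
    linarith
  have hlogL : CB ≤ Real.log L := by
    rw [Real.le_log_iff_exp_le (by linarith)]
    exact hL3
  -- the two levels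
  set lN : ℕ := LL L j with hlN
  have hhN : LL L (j + 1) = lN ^ 3 := levb_LL_succ L j
  set hN : ℕ := LL L (j + 1) with hhNdef
  have hl1 : 1 ≤ lN := Nat.one_le_pow _ _ (by omega)
  have hh1 : 1 ≤ hN := Nat.one_le_pow _ _ (by omega)
  have hlr : (1 : ℝ) ≤ lN := by exact_mod_cast hl1
  have hhr : (1 : ℝ) ≤ hN := by exact_mod_cast hh1
  have hlreal : (lN : ℝ) = (L : ℝ) ^ 3 ^ j := by
    rw [hlN]
    unfold LL
    push_cast
    rfl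
  have hhreal : (hN : ℝ) = (lN : ℝ) ^ 3 := by
    rw [hhN]
    push_cast
    rfl
  have hlogl : 3 * Real.log (lN : ℝ) = 3 ^ (j + 1) * Real.log L := by
    rw [hlreal, Real.log_pow]
    push_cast
    ring
  have hlogh : Real.log (hN : ℝ) = 3 ^ (j + 1) * Real.log L := by
    rw [hhreal, Real.log_pow, ← hlogl]
    push_cast
    ring
  set D : ℝ := 3 ^ (j + 1) * Real.log L with hD
  have h3j : (1 : ℝ) ≤ 3 ^ (j + 1) := one_le_pow₀ (by norm_num)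
  have hDge : CB ≤ D := by
    rw [hD]
    nlinarith
  have hD0 : 0 < D := by linarith
  -- `W`
  have hhh2 : hN ≤ hN ^ 2 := Nat.le_self_pow (by norm_num) _
  have hh23 : hN ^ 2 ≤ hN ^ 3 := Nat.pow_le_pow_right hh1 (by norm_num)
  have hWb := hWW hN (hN ^ 2) (hN ^ 3) hh1 hhh2 hh23
  have hratio : ((hN ^ 3 : ℕ) : ℝ) / ((hN ^ 2 : ℕ) : ℝ) = hN := by
    push_cast
    field_simp
  rw [hratio, hlogh] at hWb
  set W := ∑ v ∈ Ico (hN ^ 2) (hN ^ 3), m hN v with hWdef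
  have hcD : 2 * CW + 2 ≤ c * D := by
    rw [← hcCB]
    exact mul_le_mul_of_nonneg_left hDge hc.le
  have hWge : c * D / 2 ≤ W := by linarith
  have hW1 : 1 ≤ W := by linarith
  have hYdec : Real.exp (4 * ((hN ^ 3 : ℕ) : ℝ) / hN) ≤ Y := by
    have : 4 * ((hN ^ 3 : ℕ) : ℝ) / hN = 4 * (hN : ℝ) ^ 2 := by
      push_cast
      field_simp
    rw [this]
    exact hY
  obtain ⟨E, hGG, hE, -⟩ := hdec hN (hN ^ 2) (hN ^ 3) hh1 hhh2 hW1 Y hYdec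
  -- second part
  have hpart2 : ∑ k ∈ FB K, ‖E k‖ ^ 2 ≤ CD * κ / D := by
    have h5 : 1 / W + 1 / (hN : ℝ) ^ 2 ≤ κ / D := by
      have h6 : 1 / W ≤ (2 / c) / D := by
        rw [div_div, div_le_div_iff₀ (by linarith) (by positivity)]
        linarith
      have h7 : 1 / (hN : ℝ) ^ 2 ≤ 1 / D := by
        apply one_div_le_one_div_of_le hD0
        rw [← hlogh]
        have := Real.log_le_sub_one_of_pos (show (0:ℝ) < hN by linarith)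
        nlinarith
      have h8 : κ / D = (2 / c) / D + 1 / D := by rw [hκdef]; ring
      rw [h8]
      linarith
    calc ∑ k ∈ FB K, ‖E k‖ ^ 2 ≤ CD * (1 / W + 1 / (hN : ℝ) ^ 2) := hE K hK hKY
      _ ≤ CD * (κ / D) := mul_le_mul_of_nonneg_left h5 hCD.le
      _ = _ := by ring
  -- first part
  set T := (FB K).filter (fun k => SmjA P L α (j + 1) k ∧ ¬ SmjA P L α j k) with hT
  have hTs : T ⊆ FB K := Finset.filter_subset _ _
  have hvbound : ∀ v ∈ Ico (hN ^ 2) (hN ^ 3),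
      ∑ k ∈ T, ‖P hN v k * G (Y * Real.exp (-((v : ℝ) / hN))) k‖ ^ 2 ≤
        (lN : ℝ) ^ 3 * (1 / D / (2 * (lN : ℝ) ^ 21)) := by
    intro v hv
    rw [Finset.mem_Ico] at hv
    have hcover : ∀ k ∈ T, ‖P hN v k * G (Y * Real.exp (-((v : ℝ) / hN))) k‖ ^ 2 ≤
        ∑ r ∈ Ico (lN ^ 2) (lN ^ 3), (if Real.exp (-(aa α j * r / lN)) < ‖P lN r k‖ then
          ‖P hN v k * G (Y * Real.exp (-((v : ℝ) / hN))) k‖ ^ 2 else 0) := by
      intro k hk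
      rw [hT, Finset.mem_filter] at hk
      have h1 := hk.2.2
      unfold SmjA SmA at h1
      push Not at h1
      obtain ⟨r, hr, hr2⟩ := h1
      have h2 := Finset.single_le_sum (f := fun r : ℕ => (if Real.exp (-(aa α j * r / lN)) < ‖P lN r k‖
          then ‖P hN v k * G (Y * Real.exp (-((v : ℝ) / hN))) k‖ ^ 2 else 0))
          (fun r _ => by split_ifs <;> positivity) hr
      rw [if_pos hr2] at h2
      exact h2
    refine (Finset.sum_le_sum hcover).trans ?_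
    rw [Finset.sum_comm]
    have hrb : ∀ r ∈ Ico (lN ^ 2) (lN ^ 3),
        ∑ k ∈ T, (if Real.exp (-(aa α j * r / lN)) < ‖P lN r k‖ then
          ‖P hN v k * G (Y * Real.exp (-((v : ℝ) / hN))) k‖ ^ 2 else 0) ≤
        (1 / D / (2 * (lN : ℝ) ^ 21)) := by
      intro r hr
      rw [Finset.mem_Ico] at hr
      obtain ⟨n, hn1, hn2⟩ := xlevb_vr' hC₀.le hmom hα hα1 (lN := lN) (hN := hN) (v := v) (r := r)
        (K := K) j (Y := Y) hl1 hh1 hv.2 hr.1 hr.2 hK hKY hY T hTs (fun k hk => by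
          rw [hT, Finset.mem_filter] at hk
          exact hk.2.1 v (Finset.mem_Ico.2 hv))
      refine hn2.trans ?_
      have hx1 : (lN : ℝ) ^ 3 ≤ (v : ℝ) / hN := by
        rw [le_div_iff₀ (by linarith), ← hhreal]
        have h1 : (hN : ℝ) ^ 2 ≤ v := by exact_mod_cast hv.1
        calc (hN : ℝ) * hN = (hN : ℝ) ^ 2 := by ring
          _ ≤ v := h1
      have hx2 : (v : ℝ) / hN ≤ (lN : ℝ) ^ 6 := by
        rw [div_le_iff₀ (by linarith)]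
        have h1 : (v : ℝ) ≤ (hN : ℝ) ^ 3 := by exact_mod_cast hv.2.le
        have h2 : (lN : ℝ) ^ 6 * hN = (hN : ℝ) ^ 3 := by rw [hhreal]; ring
        rw [h2]
        exact h1
      have hreal := Pool.Agent.W240.GA.levb_real' hC₀1 hα hα1 hL4 hCL hLα j hlreal hx1 hx2 n hn1
      rw [hlogl] at hreal
      rw [le_div_iff₀ (by positivity)]
      linarith
    calc ∑ r ∈ Ico (lN ^ 2) (lN ^ 3), ∑ k ∈ T, (if Real.exp (-(aa α j * r / lN)) < ‖P lN r k‖ then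
          ‖P hN v k * G (Y * Real.exp (-((v : ℝ) / hN))) k‖ ^ 2 else 0)
        ≤ ∑ r ∈ Ico (lN ^ 2) (lN ^ 3), (1 / D / (2 * (lN : ℝ) ^ 21)) :=
          Finset.sum_le_sum hrb
      _ = ((Ico (lN ^ 2) (lN ^ 3)).card : ℝ) * (1 / D / (2 * (lN : ℝ) ^ 21)) := by
          rw [Finset.sum_const, nsmul_eq_mul]
      _ ≤ (lN : ℝ) ^ 3 * (1 / D / (2 * (lN : ℝ) ^ 21)) := by
          apply mul_le_mul_of_nonneg_right _ (by positivity)
          rw [Nat.card_Ico]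
          have : lN ^ 3 - lN ^ 2 ≤ lN ^ 3 := Nat.sub_le _ _
          exact_mod_cast this
  have hcard : ((Ico (hN ^ 2) (hN ^ 3)).card : ℝ) ≤ (lN : ℝ) ^ 9 := by
    rw [Nat.card_Ico]
    have h1 : hN ^ 3 - hN ^ 2 ≤ hN ^ 3 := Nat.sub_le _ _
    have h2 : hN ^ 3 = lN ^ 9 := by rw [hhN, ← pow_mul]
    rw [h2] at h1
    have h3 : hN ^ 3 - hN ^ 2 ≤ lN ^ 9 := by rw [h2]; exact h1
    exact_mod_cast h3
  have hpart1 : ∑ k ∈ T, 2 * (((Ico (hN ^ 2) (hN ^ 3)).card : ℝ) *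
      ∑ v ∈ Ico (hN ^ 2) (hN ^ 3), ‖P hN v k * G (Y * Real.exp (-((v : ℝ) / hN))) k‖ ^ 2) ≤
      1 / D := by
    rw [← Finset.mul_sum, ← Finset.mul_sum, Finset.sum_comm]
    have h1 : ∑ v ∈ Ico (hN ^ 2) (hN ^ 3), ∑ k ∈ T,
        ‖P hN v k * G (Y * Real.exp (-((v : ℝ) / hN))) k‖ ^ 2 ≤
        (lN : ℝ) ^ 9 * ((lN : ℝ) ^ 3 * (1 / D / (2 * (lN : ℝ) ^ 21))) := by
      refine (Finset.sum_le_sum hvbound).trans ?_
      rw [Finset.sum_const, nsmul_eq_mul]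
      exact mul_le_mul_of_nonneg_right hcard (by positivity)
    have h2 : (0 : ℝ) < (lN : ℝ) ^ 21 := by positivity
    calc 2 * (((Ico (hN ^ 2) (hN ^ 3)).card : ℝ) * ∑ v ∈ Ico (hN ^ 2) (hN ^ 3), ∑ k ∈ T,
        ‖P hN v k * G (Y * Real.exp (-((v : ℝ) / hN))) k‖ ^ 2)
        ≤ 2 * ((lN : ℝ) ^ 9 * ((lN : ℝ) ^ 9 * ((lN : ℝ) ^ 3 *
          (1 / D / (2 * (lN : ℝ) ^ 21))))) := by
          apply mul_le_mul_of_nonneg_left _ (by norm_num)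
          apply mul_le_mul hcard h1 (Finset.sum_nonneg fun v _ =>
            Finset.sum_nonneg fun k _ => by positivity) (by positivity)
      _ = 1 / D := by
          field_simp
  -- the total
  have htotal : ∑ k ∈ T, ‖G Y k‖ ^ 2 ≤ ∑ k ∈ T, (2 * (((Ico (hN ^ 2) (hN ^ 3)).card : ℝ) *
      ∑ v ∈ Ico (hN ^ 2) (hN ^ 3), ‖P hN v k * G (Y * Real.exp (-((v : ℝ) / hN))) k‖ ^ 2) +
        2 * ‖E k‖ ^ 2) := by
    refine Finset.sum_le_sum fun k _ => ?_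
    exact levb_sq _ _ _ _ W hW1 (hGG k)
  rw [Finset.sum_add_distrib] at htotal
  have hlast : ∑ k ∈ T, 2 * ‖E k‖ ^ 2 ≤ 2 * (CD * κ / D) := by
    rw [← Finset.mul_sum]
    apply mul_le_mul_of_nonneg_left _ (by norm_num)
    refine le_trans ?_ hpart2
    exact Finset.sum_le_sum_of_subset_of_nonneg hTs fun k _ _ => by positivity
  have hfin : (1 + 2 * (CD * κ)) / D =
      1 / D + 2 * (CD * κ / D) := by ring
  rw [hfin]
  linarith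

/-- the bad frequencies at one cell -/
theorem cnt_oneA (P : ℕ → ℕ → ℤ × ℤ → ℂ) {C : ℝ} (hC : 1 ≤ C)
    (hmom : ∀ (H r ℓ K : ℕ), 1 ≤ H → 1 ≤ K → (K : ℝ) ≤ Real.exp ((r : ℝ) * ℓ / H) →
    ∑ k ∈ FB K, ‖P H r k‖ ^ (2 * ℓ) ≤ C ^ (ℓ + 1) * (ℓ.factorial : ℝ) ^ 8)
    {α a T Y : ℝ} (ha0 : 0 ≤ a) (haα : a ≤ α) (hT : T = Real.log Y) (hY : 0 < Y) (hT1 : 1 ≤ T)
    {l r K : ℕ} (hl : 1 ≤ l) (hr1 : l ^ 2 ≤ r) (hr2 : r ≤ l ^ 3) (hl4 : (l : ℝ) ^ 4 ≤ T)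
    (hl12 : T < (l : ℝ) ^ 12) (hK : 1 ≤ K) (hKY : (K : ℝ) ≤ Y) :
    (open scoped Classical in
      (((FB K).filter (fun k => ¬ ‖P l r k‖ ≤ Real.exp (-(a * r / l)))).card : ℝ)) ≤
      Real.exp (2 * α * (T + T ^ (1 / 2 : ℝ))) *
      (C * Real.exp (16 * T ^ (11 / 12 : ℝ) * Real.log (2 * C * T))) := by
  classical
  have hC0 : 0 < C := by linarith
  have hlR : (1 : ℝ) ≤ l := by exact_mod_cast hl
  have hl0 : (0 : ℝ) < l := by linarith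
  have hT0 : 0 < T := by linarith
  have hr1R : (l : ℝ) ^ 2 ≤ r := by exact_mod_cast hr1
  have hr2R : (r : ℝ) ≤ (l : ℝ) ^ 3 := by exact_mod_cast hr2
  have hr0 : (0 : ℝ) < r := lt_of_lt_of_le (by positivity) hr1R
  obtain ⟨ℓ, hℓ⟩ : ∃ ℓ : ℕ, ℓ = ⌈T * l / r⌉₊ := ⟨_, rfl⟩
  have hℓ1 : T * l / r ≤ ℓ := by rw [hℓ]; exact Nat.le_ceil _
  have hℓ2 : (ℓ : ℝ) < T * l / r + 1 := by rw [hℓ]; exact Nat.ceil_lt_add_one (by positivity)
  have hℓpos : (0 : ℝ) < ℓ := lt_of_lt_of_le (by positivity) hℓ1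
  -- r ℓ / l
  have hA : T ≤ (r : ℝ) * ℓ / l := by
    rw [le_div_iff₀ hl0]
    rw [div_le_iff₀ hr0] at hℓ1
    linarith
  have hl2 : (l : ℝ) ^ 2 ≤ T ^ (1 / 2 : ℝ) := by
    rw [← Real.sqrt_eq_rpow]
    apply Real.le_sqrt_of_sq_le
    calc ((l : ℝ) ^ 2) ^ 2 = (l : ℝ) ^ 4 := by ring
      _ ≤ T := hl4
  have hB : (r : ℝ) * ℓ / l ≤ T + T ^ (1 / 2 : ℝ) := by
    have h1 : (r : ℝ) * ℓ ≤ T * l + r := by
      have := mul_le_mul_of_nonneg_left hℓ2.le hr0.le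
      have h2 : (r : ℝ) * (T * l / r + 1) = T * l + r := by field_simp
      linarith
    rw [div_le_iff₀ hl0]
    have h3 : (r : ℝ) ≤ (l : ℝ) ^ 2 * l := by
      calc (r : ℝ) ≤ (l : ℝ) ^ 3 := hr2R
        _ = (l : ℝ) ^ 2 * l := by ring
    have h4 : (l : ℝ) ^ 2 * l ≤ T ^ (1 / 2 : ℝ) * l := by gcongr
    nlinarith
  -- size of ℓ
  have hl12' : T ^ (1 / 12 : ℝ) ≤ l := by
    have h1 : T ^ (1 / 12 : ℝ) ≤ ((l : ℝ) ^ 12) ^ (1 / 12 : ℝ) :=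
      Real.rpow_le_rpow hT0.le hl12.le (by norm_num)
    have h2 : ((l : ℝ) ^ 12) ^ (1 / 12 : ℝ) = l := by
      rw [← Real.rpow_natCast, ← Real.rpow_mul hl0.le]
      norm_num
    rwa [h2] at h1
  have hpow1 : (1 : ℝ) ≤ T ^ (11 / 12 : ℝ) := Real.one_le_rpow hT1 (by norm_num)
  have hC1 : T * l / r ≤ T ^ (11 / 12 : ℝ) := by
    rw [div_le_iff₀ hr0]
    have h1 : T = T ^ (11 / 12 : ℝ) * T ^ (1 / 12 : ℝ) := by
      rw [← Real.rpow_add hT0]; norm_num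
    calc T * l = T ^ (11 / 12 : ℝ) * (T ^ (1 / 12 : ℝ) * l) := by rw [← mul_assoc, ← h1]
      _ ≤ T ^ (11 / 12 : ℝ) * (l * l) := by gcongr
      _ = T ^ (11 / 12 : ℝ) * (l : ℝ) ^ 2 := by ring
      _ ≤ T ^ (11 / 12 : ℝ) * r := by gcongr
  have hℓ3 : (ℓ : ℝ) ≤ 2 * T ^ (11 / 12 : ℝ) := by linarith
  have hTT : T ^ (11 / 12 : ℝ) ≤ T := by
    calc T ^ (11 / 12 : ℝ) ≤ T ^ (1 : ℝ) := Real.rpow_le_rpow_of_exponent_le hT1 (by norm_num)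
      _ = T := Real.rpow_one T
  have hℓ4 : (ℓ : ℝ) ≤ 2 * T := by linarith
  -- the moment
  have hKe : (K : ℝ) ≤ Real.exp ((r : ℝ) * ℓ / l) := by
    calc (K : ℝ) ≤ Y := hKY
      _ = Real.exp T := by rw [hT, Real.exp_log hY]
      _ ≤ _ := Real.exp_le_exp.mpr hA
  have hm := hmom l r ℓ K hl hK hKe
  set B := (FB K).filter (fun k => ¬ ‖P l r k‖ ≤ Real.exp (-(a * r / l))) with hBdef
  have hlow : (B.card : ℝ) * Real.exp (-(2 * a * (r * ℓ / l))) ≤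
      ∑ k ∈ FB K, ‖P l r k‖ ^ (2 * ℓ) := by
    calc (B.card : ℝ) * Real.exp (-(2 * a * (r * ℓ / l)))
        = ∑ k ∈ B, Real.exp (-(2 * a * (r * ℓ / l))) := by rw [sum_const, nsmul_eq_mul]
      _ ≤ ∑ k ∈ B, ‖P l r k‖ ^ (2 * ℓ) := by
          apply sum_le_sum
          intro k hk
          rw [hBdef, mem_filter, not_le] at hk
          have h1 : Real.exp (-(2 * a * (r * ℓ / l))) = Real.exp (-(a * r / l)) ^ (2 * ℓ) := by
            rw [← Real.exp_nat_mul]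
            congr 1
            push_cast
            ring
          rw [h1]
          exact pow_le_pow_left₀ (Real.exp_pos _).le hk.2.le _
      _ ≤ ∑ k ∈ FB K, ‖P l r k‖ ^ (2 * ℓ) :=
          sum_le_sum_of_subset_of_nonneg (filter_subset _ _) (fun _ _ _ => by positivity)
  have hup : C ^ (ℓ + 1) * (ℓ.factorial : ℝ) ^ 8 ≤
      C * Real.exp (16 * T ^ (11 / 12 : ℝ) * Real.log (2 * C * T)) := by
    have h1 : (ℓ.factorial : ℝ) ≤ (ℓ : ℝ) ^ ℓ := by exact_mod_cast Nat.factorial_le_pow ℓ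
    have h1' : (ℓ.factorial : ℝ) ^ 8 ≤ ((ℓ : ℝ) ^ ℓ) ^ 8 := by gcongr
    have h2 : (C ^ ℓ * (ℓ : ℝ) ^ ℓ) ^ 8 = Real.exp (8 * (ℓ * Real.log (C * ℓ))) := by
      have h2' : Real.exp (ℓ * Real.log (C * ℓ)) = C ^ ℓ * (ℓ : ℝ) ^ ℓ := by
        rw [Real.exp_nat_mul, Real.exp_log (by positivity), mul_pow]
      rw [← h2', ← Real.exp_nat_mul]
      norm_num
    have h3 : Real.log (C * ℓ) ≤ Real.log (2 * C * T) :=
      Real.log_le_log (by positivity) (by nlinarith)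
    have h4 : 0 ≤ Real.log (2 * C * T) := Real.log_nonneg (by nlinarith)
    have h5 : C ^ ℓ ≤ (C ^ ℓ) ^ 8 := le_self_pow₀ (one_le_pow₀ hC) (by norm_num)
    calc C ^ (ℓ + 1) * (ℓ.factorial : ℝ) ^ 8 ≤ C ^ (ℓ + 1) * ((ℓ : ℝ) ^ ℓ) ^ 8 := by gcongr
      _ = C * (C ^ ℓ * ((ℓ : ℝ) ^ ℓ) ^ 8) := by ring
      _ ≤ C * ((C ^ ℓ) ^ 8 * ((ℓ : ℝ) ^ ℓ) ^ 8) := by gcongr
      _ = C * (C ^ ℓ * (ℓ : ℝ) ^ ℓ) ^ 8 := by rw [mul_pow]
      _ = C * Real.exp (8 * (ℓ * Real.log (C * ℓ))) := by rw [h2]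
      _ ≤ C * Real.exp (16 * T ^ (11 / 12 : ℝ) * Real.log (2 * C * T)) := by
          apply mul_le_mul_of_nonneg_left _ hC0.le
          apply Real.exp_le_exp.mpr
          calc 8 * ((ℓ : ℝ) * Real.log (C * ℓ)) ≤ 8 * (ℓ * Real.log (2 * C * T)) := by gcongr
            _ ≤ 8 * ((2 * T ^ (11 / 12 : ℝ)) * Real.log (2 * C * T)) := by gcongr
            _ = 16 * T ^ (11 / 12 : ℝ) * Real.log (2 * C * T) := by ring
  have hmain : (B.card : ℝ) * Real.exp (-(2 * a * (r * ℓ / l))) ≤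
      C * Real.exp (16 * T ^ (11 / 12 : ℝ) * Real.log (2 * C * T)) :=
    hlow.trans (hm.trans hup)
  have hexpa : Real.exp (2 * a * (r * ℓ / l)) ≤ Real.exp (2 * α * (T + T ^ (1 / 2 : ℝ))) := by
    apply Real.exp_le_exp.mpr
    have h1 : 0 ≤ (r : ℝ) * ℓ / l := by positivity
    calc 2 * a * (r * ℓ / l) ≤ 2 * α * (r * ℓ / l) := by gcongr
      _ ≤ 2 * α * (T + T ^ (1 / 2 : ℝ)) := by
        have : 0 ≤ α := ha0.trans haα
        gcongr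
  calc (B.card : ℝ) = Real.exp (2 * a * (r * ℓ / l)) *
        ((B.card : ℝ) * Real.exp (-(2 * a * (r * ℓ / l)))) := by
        rw [mul_comm (B.card : ℝ), ← mul_assoc, ← Real.exp_add]; simp
    _ ≤ _ := by gcongr

/-- CNT for the abstract machine -/
theorem s_cnt : S_CNT := by
  classical
  intro P m G hM α hα _
  obtain ⟨C, hC, hmom⟩ := hM.momP
  obtain ⟨T₀, hT₀1, hT₀⟩ := Pool.Agent.W397.GA.cnt_asymA α C hα hC
  refine ⟨1, fun L hL => ⟨Real.exp T₀, fun Y hY j K h4 h12 hKY => ?_⟩⟩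
  have hYpos : 0 < Y := lt_of_lt_of_le (Real.exp_pos _) hY
  obtain ⟨T, hT⟩ : ∃ T : ℝ, T = Real.log Y := ⟨_, rfl⟩
  have hTT₀ : T₀ ≤ T := by
    rw [hT]; exact (Real.le_log_iff_exp_le hYpos).mpr hY
  have hT1 : 1 ≤ T := hT₀1.trans hTT₀
  have hYα : Y ^ (4 * α) = Real.exp (4 * α * T) := by
    rw [Real.rpow_def_of_pos hYpos, ← hT, mul_comm]
  rw [← hT] at h4 h12
  obtain ⟨l, hl⟩ : ∃ l : ℕ, l = LL L j := ⟨_, rfl⟩
  have hl1 : 1 ≤ l := by rw [hl]; exact LL_pos hL j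
  rw [LL_succ_eq] at h12
  rw [← hl] at h4 h12
  have h12' : T < (l : ℝ) ^ 12 := by
    calc T < ((l ^ 3 : ℕ) : ℝ) ^ 4 := h12
      _ = (l : ℝ) ^ 12 := by push_cast; ring
  rcases Nat.eq_zero_or_pos K with hK0 | hKpos
  · subst hK0
    have : FB 0 = ∅ := FB_zero
    rw [this]
    simp only [filter_empty, card_empty, Nat.cast_zero]
    positivity
  · have hsub : (FB K).filter (fun k => ¬ SmjA P L α j k) ⊆
        (Ico (l ^ 2) (l ^ 3)).biUnion (fun r => (FB K).filter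
          (fun k => ¬ ‖P l r k‖ ≤ Real.exp (-(aa α j * r / l)))) := by
      intro k hk
      rw [mem_filter] at hk
      obtain ⟨hkF, hkS⟩ := hk
      unfold SmjA SmA at hkS
      rw [← hl] at hkS
      push Not at hkS
      obtain ⟨r, hr, hrk⟩ := hkS
      rw [mem_biUnion]
      exact ⟨r, hr, mem_filter.mpr ⟨hkF, not_le.mpr hrk⟩⟩
    have hcard : (((FB K).filter (fun k => ¬ SmjA P L α j k)).card : ℝ) ≤
        ∑ r ∈ Ico (l ^ 2) (l ^ 3), (((FB K).filter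
          (fun k => ¬ ‖P l r k‖ ≤ Real.exp (-(aa α j * r / l)))).card : ℝ) := by
      have h1 := (card_le_card hsub).trans card_biUnion_le
      exact_mod_cast h1
    have hsum : ∑ r ∈ Ico (l ^ 2) (l ^ 3), (((FB K).filter
          (fun k => ¬ ‖P l r k‖ ≤ Real.exp (-(aa α j * r / l)))).card : ℝ) ≤
        ∑ r ∈ Ico (l ^ 2) (l ^ 3), (Real.exp (2 * α * (T + T ^ (1 / 2 : ℝ))) *
      (C * Real.exp (16 * T ^ (11 / 12 : ℝ) * Real.log (2 * C * T)))) := by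
      apply sum_le_sum
      intro r hr
      rw [mem_Ico] at hr
      exact cnt_oneA P hC hmom (aa_nonneg hα.le j) (aa_le hα.le j) hT hYpos hT1 hl1 hr.1 hr.2.le h4
        h12' hKpos hKY
    have hnum : ((Ico (l ^ 2) (l ^ 3)).card : ℝ) ≤ T := by
      rw [Nat.card_Ico]
      have h1 : ((l ^ 3 - l ^ 2 : ℕ) : ℝ) ≤ ((l ^ 4 : ℕ) : ℝ) := by
        have : l ^ 3 - l ^ 2 ≤ l ^ 4 :=
          (Nat.sub_le _ _).trans (Nat.pow_le_pow_right hl1 (by norm_num))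
        exact_mod_cast this
      calc ((l ^ 3 - l ^ 2 : ℕ) : ℝ) ≤ ((l ^ 4 : ℕ) : ℝ) := h1
        _ = (l : ℝ) ^ 4 := by push_cast; ring
        _ ≤ T := h4
    rw [hYα]
    refine hcard.trans (hsum.trans ?_)
    rw [sum_const, nsmul_eq_mul]
    refine le_trans ?_ (hT₀ T hTT₀)
    have hT0 : 0 < T := by linarith
    have hC0 : 0 < C := by linarith
    gcongr

theorem tpart_biUnion (s : Finset ℕ) (B : ℕ → Finset (ℤ × ℤ)) (f : ℤ × ℤ → ℝ) (hf : ∀ k, 0 ≤ f k) :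
    ∑ k ∈ s.biUnion B, f k ≤ ∑ j ∈ s, ∑ k ∈ B j, f k := by
  classical
  induction s using Finset.induction_on with
  | empty => simp
  | insert a s ha ih =>
    rw [biUnion_insert, sum_insert ha]
    have h1 := sum_union_inter (s₁ := B a) (s₂ := s.biUnion B) (f := f)
    have h2 : 0 ≤ ∑ k ∈ B a ∩ s.biUnion B, f k := sum_nonneg (fun _ _ => hf _)
    linarith


end Pool.Agent.N49.MS
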